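import Mathlib
import Pool.Agent.Helper703.KL.Cox

set_option autoImplicit false
set_option linter.unusedSimpArgs false

namespace Pool.Agent.TH589.QD

open Matrix Pool.Agent.Helper703.Cox

/-- Coxeter matrix of type `(2, 3, ∞)` -/
def cm : CoxeterMatrix (Fin 3) where
  M := Matrix.of ![![1, 2, 0], ![2, 1, 3], ![0, 3, 1]]
  isSymm := by
    apply Matrix.IsSymm.ext
    intro i j
    fin_cases i <;> fin_cases j <;> rfl
  diagonal := by intro i; fin_cases i <;> rfl
  off_diagonal := by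
    intro i j h
    fin_cases i <;> fin_cases j <;> first | exact absurd rfl h | (simp)

/-- Coxeter group -/
abbrev W : Type := cm.Group

/-- Coxeter system -/
abbrev cs : CoxeterSystem cm W := cm.toCoxeterSystem

/-- integer matrices -/
abbrev M3 : Type := Matrix (Fin 3) (Fin 3) ℤ

/-- the reflections in the coordinates `(a, b, c)` -/
def R : Fin 3 → M3 :=
  ![!![1, 0, 0; 0, -1, 0; 0, 0, 1], !![0, 0, 1; 0, 1, 0; 1, 0, 0], !![1, 0, 0; 1, -1, 0; 1, -2, 1]]

lemma R_liftable : cm.IsLiftable R := by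
  intro i j
  fin_cases i <;> fin_cases j
  · change (R 0 * R 0) ^ 1 = 1; decide +kernel
  · change (R 0 * R 1) ^ 2 = 1; decide +kernel
  · change (R 0 * R 2) ^ 0 = 1; decide +kernel
  · change (R 1 * R 0) ^ 2 = 1; decide +kernel
  · change (R 1 * R 1) ^ 1 = 1; decide +kernel
  · change (R 1 * R 2) ^ 3 = 1; decide +kernel
  · change (R 2 * R 0) ^ 0 = 1; decide +kernel
  · change (R 2 * R 1) ^ 3 = 1; decide +kernel
  · change (R 2 * R 2) ^ 1 = 1; decide +kernel

/-- the standard representation -/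
def N : W →* M3 := cs.lift ⟨R, R_liftable⟩

@[simp] lemma N_simple (i : Fin 3) : N (cs.simple i) = R i :=
  cs.lift_apply_simple R_liftable i

/-- the twisted generators -/
def T : Fin 3 → M3 := ![R 0 * R 1, R 1, R 2]

lemma T_liftable : cm.IsLiftable T := by
  intro i j
  fin_cases i <;> fin_cases j
  · change (T 0 * T 0) ^ 1 = 1; decide +kernel
  · change (T 0 * T 1) ^ 2 = 1; decide +kernel
  · change (T 0 * T 2) ^ 0 = 1; decide +kernel
  · change (T 1 * T 0) ^ 2 = 1; decide +kernel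
  · change (T 1 * T 1) ^ 1 = 1; decide +kernel
  · change (T 1 * T 2) ^ 3 = 1; decide +kernel
  · change (T 2 * T 0) ^ 0 = 1; decide +kernel
  · change (T 2 * T 1) ^ 3 = 1; decide +kernel
  · change (T 2 * T 2) ^ 1 = 1; decide +kernel

/-- the twisted representation over the integers -/
def NT : W →* M3 := cs.lift ⟨T, T_liftable⟩

@[simp] lemma NT_simple (i : Fin 3) : NT (cs.simple i) = T i :=
  cs.lift_apply_simple T_liftable i

/-- the change of basis -/
def P : M3 := !![0, 1, 0; -1, 0, 1; 0, -1, 1]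

/-- its inverse -/
def Pinv : M3 := !![1, -1, 1; 1, 0, 0; 1, 0, 1]

lemma P_Pinv : P * Pinv = 1 := by decide +kernel

lemma Pinv_P : Pinv * P = 1 := by decide +kernel

/-- to real endomorphisms, in the basis of simple roots -/
noncomputable def Phi : M3 →* Module.End ℝ (Fin 3 → ℝ) where
  toFun A := Matrix.toLin' ((Int.castRingHom ℝ).mapMatrix (Pinv * A * P))
  map_one' := by
    rw [mul_one, Pinv_P, map_one, Matrix.toLin'_one]; rfl
  map_mul' A B := by
    have : Pinv * (A * B) * P = (Pinv * A * P) * (Pinv * B * P) := by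
      calc Pinv * (A * B) * P = Pinv * A * 1 * B * P := by simp [mul_assoc]
        _ = Pinv * A * (P * Pinv) * B * P := by rw [P_Pinv]
        _ = _ := by simp only [mul_assoc]
    rw [this, map_mul, Matrix.toLin'_mul]; rfl

lemma Phi_R (j : Fin 3) : Phi (R j) = sg cm j := by
  have c01 : cc cm 0 1 = 0 := by
    have : cc cm 0 1 = Real.cos (Real.pi / ((2 : ℕ) : ℝ)) := rfl
    rw [this]; simp
  have c12 : cc cm 1 2 = 1 / 2 := by
    have : cc cm 1 2 = Real.cos (Real.pi / ((3 : ℕ) : ℝ)) := rfl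
    rw [this]; simp
  have c02 : cc cm 0 2 = 1 := cc_of_zero cm rfl
  have c10 : cc cm 1 0 = 0 := by rw [cc_symm]; exact c01
  have c21 : cc cm 2 1 = 1 / 2 := by rw [cc_symm]; exact c12
  have c20 : cc cm 2 0 = 1 := by rw [cc_symm]; exact c02
  have k0 : Pinv * R 0 * P = !![-1, 0, 2; 0, 1, 0; 0, 0, 1] := by decide +kernel
  have k1 : Pinv * R 1 * P = !![1, 0, 0; 0, -1, 1; 0, 0, 1] := by decide +kernel
  have k2 : Pinv * R 2 * P = !![1, 0, 0; 0, 1, 0; 2, 1, -1] := by decide +kernel
  apply (Pi.basisFun ℝ (Fin 3)).ext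
  intro i
  rw [Pi.basisFun_apply]
  have h1 : Phi (R j) (Pi.single i 1) = ((Int.castRingHom ℝ).mapMatrix (Pinv * R j * P)).col i := by
    change Matrix.toLin' ((Int.castRingHom ℝ).mapMatrix (Pinv * R j * P)) (Pi.single i 1) = _
    rw [Matrix.toLin'_apply, Matrix.mulVec_single_one]
  have h2 : sg cm j (Pi.single i 1) = ee i + (2 * cc cm i j) • ee j := sg_ee cm i j
  rw [h1, h2]
  ext l
  change (((Pinv * R j * P) l i : ℤ) : ℝ) = _
  fin_cases j
  · change (((Pinv * R 0 * P) l i : ℤ) : ℝ) = _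
    rw [k0]
    fin_cases i <;> fin_cases l <;> simp [c01, c12, c02, c10, c21, c20, ee] <;> norm_num
  · change (((Pinv * R 1 * P) l i : ℤ) : ℝ) = _
    rw [k1]
    fin_cases i <;> fin_cases l <;> simp [c01, c12, c02, c10, c21, c20, ee] <;> norm_num
  · change (((Pinv * R 2 * P) l i : ℤ) : ℝ) = _
    rw [k2]
    fin_cases i <;> fin_cases l <;> simp [c01, c12, c02, c10, c21, c20, ee] <;> norm_num

lemma Phi_N (w : W) : Phi (N w) = geo cs w := by
  have : Phi.comp N = geo cs := by
    apply cs.ext_simple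
    intro i
    rw [MonoidHom.comp_apply, N_simple, geo_simple, Phi_R]
  exact DFunLike.congr_fun this w

lemma N_faithful {w : W} (h : N w = 1) : w = 1 := by
  apply geo_injective cs
  rw [← Phi_N, h, map_one, map_one]

/-- twisted generators in the group -/
def tw : Fin 3 → W := ![cs.simple 0 * cs.simple 1, cs.simple 1, cs.simple 2]

lemma comm01 : cs.simple 0 * cs.simple 1 = cs.simple 1 * cs.simple 0 := by
  have h : (cs.simple 0 * cs.simple 1) ^ 2 = 1 := cs.simple_mul_simple_pow 0 1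
  have h0 : cs.simple 0 * cs.simple 0 = 1 := cs.simple_mul_simple_self 0
  have h1 : cs.simple 1 * cs.simple 1 = 1 := cs.simple_mul_simple_self 1
  calc cs.simple 0 * cs.simple 1
      = (cs.simple 0 * cs.simple 1) * ((cs.simple 1 * cs.simple 0) * (cs.simple 0 * cs.simple 1)) := by
        rw [mul_assoc (cs.simple 1), ← mul_assoc (cs.simple 0) (cs.simple 0), h0, one_mul, h1, mul_one]
    _ = ((cs.simple 0 * cs.simple 1) * (cs.simple 1 * cs.simple 0)) * (cs.simple 0 * cs.simple 1) := by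
        simp only [mul_assoc]
    _ = cs.simple 0 * cs.simple 1 := by
        rw [mul_assoc (cs.simple 0) (cs.simple 1), ← mul_assoc (cs.simple 1) (cs.simple 1), h1,
          one_mul, h0, one_mul]
    _ = (cs.simple 1 * cs.simple 0) * ((cs.simple 0 * cs.simple 1) * (cs.simple 0 * cs.simple 1)) := by
        rw [← mul_assoc (cs.simple 1 * cs.simple 0), mul_assoc (cs.simple 1) (cs.simple 0),
          ← mul_assoc (cs.simple 0) (cs.simple 0), h0, one_mul, h1, one_mul]
    _ = cs.simple 1 * cs.simple 0 := by rw [← pow_two, h, mul_one]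

lemma tw_liftable : cm.IsLiftable tw := by
  have h0 : cs.simple 0 * cs.simple 0 = 1 := cs.simple_mul_simple_self 0
  have h1 : cs.simple 1 * cs.simple 1 = 1 := cs.simple_mul_simple_self 1
  have h2 : cs.simple 2 * cs.simple 2 = 1 := cs.simple_mul_simple_self 2
  have h01 : (cs.simple 0 * cs.simple 1) ^ 2 = 1 := cs.simple_mul_simple_pow 0 1
  have e0 : tw 0 = cs.simple 0 * cs.simple 1 := rfl
  have e1 : tw 1 = cs.simple 1 := rfl
  have e2 : tw 2 = cs.simple 2 := rfl
  intro i j
  fin_cases i <;> fin_cases j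
  · change (tw 0 * tw 0) ^ 1 = 1
    rw [e0, pow_one, ← pow_two, h01]
  · change (tw 0 * tw 1) ^ 2 = 1
    rw [e0, e1, mul_assoc, h1, mul_one, pow_two, h0]
  · change (tw 0 * tw 2) ^ 0 = 1
    rw [pow_zero]
  · change (tw 1 * tw 0) ^ 2 = 1
    rw [e0, e1, comm01, ← mul_assoc, h1, one_mul, pow_two, h0]
  · change (tw 1 * tw 1) ^ 1 = 1
    rw [e1, h1, one_pow]
  · change (tw 1 * tw 2) ^ 3 = 1
    exact cs.simple_mul_simple_pow 1 2
  · change (tw 2 * tw 0) ^ 0 = 1
    rw [pow_zero]
  · change (tw 2 * tw 1) ^ 3 = 1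
    exact cs.simple_mul_simple_pow 2 1
  · change (tw 2 * tw 2) ^ 1 = 1
    rw [e2, h2, one_pow]

/-- the twisting automorphism -/
def psi : W →* W := cs.lift ⟨tw, tw_liftable⟩

@[simp] lemma psi_simple (i : Fin 3) : psi (cs.simple i) = tw i :=
  cs.lift_apply_simple tw_liftable i

lemma psi_psi (w : W) : psi (psi w) = w := by
  have : psi.comp psi = MonoidHom.id W := by
    apply cs.ext_simple
    intro i
    rw [MonoidHom.comp_apply, psi_simple, MonoidHom.id_apply]
    fin_cases i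
    · change psi (cs.simple 0 * cs.simple 1) = cs.simple 0
      rw [map_mul, psi_simple, psi_simple]
      change cs.simple 0 * cs.simple 1 * cs.simple 1 = cs.simple 0
      rw [mul_assoc, cs.simple_mul_simple_self 1, mul_one]
    · change psi (cs.simple 1) = cs.simple 1
      rw [psi_simple]; rfl
    · change psi (cs.simple 2) = cs.simple 2
      rw [psi_simple]; rfl
  exact DFunLike.congr_fun this w

lemma NT_eq (w : W) : NT w = N (psi w) := by
  have : NT = N.comp psi := by
    apply cs.ext_simple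
    intro i
    rw [MonoidHom.comp_apply, psi_simple, NT_simple]
    fin_cases i
    · change T 0 = N (cs.simple 0 * cs.simple 1)
      rw [map_mul, N_simple, N_simple]; rfl
    · change T 1 = N (cs.simple 1)
      rw [N_simple]; rfl
    · change T 2 = N (cs.simple 2)
      rw [N_simple]; rfl
  exact DFunLike.congr_fun this w

lemma NT_faithful {w : W} (h : NT w = 1) : w = 1 := by
  rw [NT_eq] at h
  have := N_faithful h
  rw [← psi_psi w, this, map_one]

/-- real matrices -/
abbrev MR : Type := Matrix (Fin 3) (Fin 3) ℝ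

/-- the representation over the reals -/
noncomputable def rho : W →* MRˣ :=
  (Units.map ((Int.castRingHom ℝ).mapMatrix : M3 →+* MR).toMonoidHom).comp NT.toHomUnits

lemma rho_val (w : W) : (rho w).val = (NT w).map (Int.cast : ℤ → ℝ) := rfl

lemma rho_injective : Function.Injective rho := by
  rw [injective_iff_map_eq_one]
  intro w hw
  apply NT_faithful
  have h1 : (rho w).val = 1 := by rw [hw]; rfl
  rw [rho_val] at h1
  have h2 : (NT w).map (Int.cast : ℤ → ℝ) = (1 : M3).map (Int.cast : ℤ → ℝ) := by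
    rw [h1, Matrix.map_one _ Int.cast_zero Int.cast_one]
  exact Matrix.map_injective Int.cast_injective h2

lemma rho_det (w : W) : (rho w).val.det = 1 ∨ (rho w).val.det = -1 := by
  have h1 : IsUnit (NT w).det := by
    have : IsUnit (NT w) := (NT.toHomUnits w).isUnit
    exact (Matrix.isUnit_iff_isUnit_det _).mp this
  have h2 : (rho w).val.det = (((NT w).det : ℤ) : ℝ) := by
    rw [rho_val]
    exact (Int.castRingHom ℝ).map_det (NT w) |>.symm
  rcases Int.isUnit_iff.mp h1 with h | h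
  · left; rw [h2, h]; norm_num
  · right; rw [h2, h]; norm_num

lemma rho_discrete (w : W)
    (h : ∀ i j, |(rho w).val i j - (1 : MR) i j| < 1) : rho w = 1 := by
  have h1 : NT w = 1 := by
    ext i j
    have h2 := h i j
    rw [rho_val] at h2
    have h3 : ((1 : MR) i j) = (((1 : M3) i j : ℤ) : ℝ) := by
      rw [Matrix.one_apply, Matrix.one_apply]; split_ifs <;> simp
    rw [h3, Matrix.map_apply, ← Int.cast_sub, ← Int.cast_abs] at h2
    have h4 : |NT w i j - (1 : M3) i j| < 1 := by exact_mod_cast h2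
    have h5 := Int.abs_lt_one_iff.mp h4
    omega
  have : w = 1 := NT_faithful h1
  rw [this, map_one]

/-- the cone of positive definite forms -/
def C : Set (Fin 3 → ℝ) := {v | 0 < v 0 ∧ v 1 ^ 2 < v 0 * v 2}

lemma C_pos2 {v : Fin 3 → ℝ} (h : v ∈ C) : 0 < v 2 := by
  obtain ⟨h0, h1⟩ := h
  nlinarith [sq_nonneg (v 1)]

lemma isOpen_C : IsOpen C := by
  apply IsOpen.inter
  · exact isOpen_lt continuous_const (continuous_apply 0)
  · exact isOpen_lt ((continuous_apply 1).pow 2) ((continuous_apply 0).mul (continuous_apply 2))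

lemma smul_C {v : Fin 3 → ℝ} (h : v ∈ C) {t : ℝ} (ht : 0 < t) : t • v ∈ C := by
  obtain ⟨h0, h1⟩ := h
  refine ⟨?_, ?_⟩
  · simp only [Pi.smul_apply, smul_eq_mul]; positivity
  · simp only [Pi.smul_apply, smul_eq_mul]
    have : 0 < t ^ 2 := by positivity
    nlinarith

lemma add_C {v w : Fin 3 → ℝ} (hv : v ∈ C) (hw : w ∈ C) : v + w ∈ C := by
  have hv2 := C_pos2 hv
  have hw2 := C_pos2 hw
  obtain ⟨v0, v1⟩ := hv
  obtain ⟨w0, w1⟩ := hw
  refine ⟨by simp only [Pi.add_apply]; linarith, ?_⟩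
  simp only [Pi.add_apply]
  have key : 2 * (v 1 * w 1) ≤ v 0 * w 2 + w 0 * v 2 := by
    have h1 : (v 1 * w 1) ^ 2 ≤ (v 0 * w 2) * (w 0 * v 2) := by
      have : (v 1 * w 1) ^ 2 = v 1 ^ 2 * w 1 ^ 2 := by ring
      rw [this]
      calc v 1 ^ 2 * w 1 ^ 2 ≤ (v 0 * v 2) * (w 0 * w 2) := by
            apply mul_le_mul v1.le w1.le (sq_nonneg _) (by positivity)
        _ = _ := by ring
    have h2 : 0 < v 0 * w 2 := by positivity
    have h3 : 0 < w 0 * v 2 := by positivity
    by_contra hcon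
    push Not at hcon
    nlinarith [sq_nonneg (v 0 * w 2 - w 0 * v 2), sq_nonneg (v 1 * w 1)]
  nlinarith

lemma convex_C : Convex ℝ C := by
  intro x hx y hy a b ha hb hab
  rcases ha.eq_or_lt with h | h
  · have : b = 1 := by linarith
    rw [← h, this, zero_smul, zero_add, one_smul]; exact hy
  rcases hb.eq_or_lt with h' | h'
  · have : a = 1 := by linarith
    rw [← h', this, zero_smul, add_zero, one_smul]; exact hx
  exact add_C (smul_C hx h) (smul_C hy h')

lemma nonempty_C : C.Nonempty := ⟨![1, 0, 1], by simp [C]⟩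

lemma closure_C {v : Fin 3 → ℝ} (h : v ∈ closure C) : 0 ≤ v 0 ∧ 0 ≤ v 2 ∧ v 1 ^ 2 ≤ v 0 * v 2 := by
  have hc : IsClosed {v : Fin 3 → ℝ | 0 ≤ v 0 ∧ 0 ≤ v 2 ∧ v 1 ^ 2 ≤ v 0 * v 2} := by
    apply IsClosed.inter
    · exact isClosed_le continuous_const (continuous_apply 0)
    apply IsClosed.inter
    · exact isClosed_le continuous_const (continuous_apply 2)
    · exact isClosed_le ((continuous_apply 1).pow 2) ((continuous_apply 0).mul (continuous_apply 2))
  have hs : C ⊆ {v : Fin 3 → ℝ | 0 ≤ v 0 ∧ 0 ≤ v 2 ∧ v 1 ^ 2 ≤ v 0 * v 2} :=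
    fun x hx => ⟨hx.1.le, (C_pos2 hx).le, hx.2.le⟩
  exact closure_minimal hs hc h

lemma no_line (x v : Fin 3 → ℝ) (hv : v ≠ 0) : ∃ t : ℝ, x + t • v ∉ closure C := by
  by_contra hcon
  push Not at hcon
  have h : ∀ t : ℝ, 0 ≤ x 0 + t * v 0 ∧ 0 ≤ x 2 + t * v 2 ∧
      (x 1 + t * v 1) ^ 2 ≤ (x 0 + t * v 0) * (x 2 + t * v 2) := by
    intro t
    have := closure_C (hcon t)
    simpa using this
  have h0 : v 0 = 0 := by
    by_contra h0
    have := (h (-(x 0 + 1) / v 0)).1
    rw [div_mul_cancel₀ _ h0] at this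
    linarith
  have h2 : v 2 = 0 := by
    by_contra h0
    have := (h (-(x 2 + 1) / v 2)).2.1
    rw [div_mul_cancel₀ _ h0] at this
    linarith
  have h1 : v 1 = 0 := by
    by_contra h1
    have := (h ((x 0 * x 2 + 1 - x 1) / v 1)).2.2
    rw [div_mul_cancel₀ _ h1, h0, h2] at this
    simp only [mul_zero, add_zero] at this
    nlinarith [(h 0).1, (h 0).2.1, sq_nonneg (x 0 * x 2)]
  apply hv
  ext i
  fin_cases i
  · exact h0
  · exact h1
  · exact h2

lemma T0_mulVec (v : Fin 3 → ℝ) : (T 0).map (Int.cast : ℤ → ℝ) *ᵥ v = ![v 2, - v 1, v 0] := by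
  have : T 0 = !![0, 0, 1; 0, -1, 0; 1, 0, 0] := by decide +kernel
  rw [this]
  ext i
  fin_cases i <;> simp [Matrix.mulVec, dotProduct, Fin.sum_univ_three]

lemma T1_mulVec (v : Fin 3 → ℝ) : (T 1).map (Int.cast : ℤ → ℝ) *ᵥ v = ![v 2, v 1, v 0] := by
  have : T 1 = !![0, 0, 1; 0, 1, 0; 1, 0, 0] := by decide +kernel
  rw [this]
  ext i
  fin_cases i <;> simp [Matrix.mulVec, dotProduct, Fin.sum_univ_three]

lemma T2_mulVec (v : Fin 3 → ℝ) : (T 2).map (Int.cast : ℤ → ℝ) *ᵥ v =
    ![v 0, v 0 - v 1, v 0 - 2 * v 1 + v 2] := by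
  have : T 2 = !![1, 0, 0; 1, -1, 0; 1, -2, 1] := by decide +kernel
  rw [this]
  ext i
  fin_cases i <;> simp [Matrix.mulVec, dotProduct, Fin.sum_univ_three] <;> ring

lemma rho_simple_mulVec (i : Fin 3) (v : Fin 3 → ℝ) :
    (rho (cs.simple i)).val *ᵥ v = (T i).map (Int.cast : ℤ → ℝ) *ᵥ v := by
  rw [rho_val, NT_simple]

lemma rho_mul_mulVec (w w' : W) (v : Fin 3 → ℝ) :
    (rho (w * w')).val *ᵥ v = (rho w).val *ᵥ ((rho w').val *ᵥ v) := by
  rw [map_mul, Units.val_mul, Matrix.mulVec_mulVec]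

lemma rho_C (w : W) : ∀ x ∈ C, (rho w).val *ᵥ x ∈ C := by
  induction w using cs.simple_induction with
  | simple i =>
    intro x hx
    have h2 := C_pos2 hx
    obtain ⟨h0, h1⟩ := hx
    rw [rho_simple_mulVec]
    fin_cases i
    · change (T 0).map (Int.cast : ℤ → ℝ) *ᵥ x ∈ C
      rw [T0_mulVec]
      refine ⟨by simpa using h2, ?_⟩
      simp; nlinarith
    · change (T 1).map (Int.cast : ℤ → ℝ) *ᵥ x ∈ C
      rw [T1_mulVec]
      refine ⟨by simpa using h2, ?_⟩
      simp; nlinarith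
    · change (T 2).map (Int.cast : ℤ → ℝ) *ᵥ x ∈ C
      rw [T2_mulVec]
      refine ⟨by simpa using h0, ?_⟩
      simp; nlinarith
  | one => intro x hx; rw [map_one]; simpa using hx
  | mul w w' h h' =>
    intro x hx
    rw [rho_mul_mulVec]
    exact h _ (h' _ hx)

end Pool.Agent.TH589.QD
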