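import Mathlib
import Pool.Agent.TH589.QD.Group

set_option autoImplicit false

namespace Pool.Agent.TH589.QD

open Matrix UpperHalfPlane ModularGroup
open scoped MatrixGroups

/-- the vector of a point of the upper half-plane -/
noncomputable def vec (z : ℍ) : Fin 3 → ℝ := ![1, z.re, Complex.normSq (z : ℂ)]

lemma vec_ne (z : ℍ) : 0 < Complex.normSq (z : ℂ) := UpperHalfPlane.normSq_pos z

lemma rho_s0 (v : Fin 3 → ℝ) : (rho (cs.simple 0)).val *ᵥ v = ![v 2, - v 1, v 0] := by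
  rw [rho_simple_mulVec, T0_mulVec]

lemma rho_s1 (v : Fin 3 → ℝ) : (rho (cs.simple 1)).val *ᵥ v = ![v 2, v 1, v 0] := by
  rw [rho_simple_mulVec, T1_mulVec]

lemma rho_s2 (v : Fin 3 → ℝ) : (rho (cs.simple 2)).val *ᵥ v =
    ![v 0, v 0 - v 1, v 0 - 2 * v 1 + v 2] := by
  rw [rho_simple_mulVec, T2_mulVec]

/-- the property that an element of the modular group is realized -/
def Realized (g : SL(2, ℤ)) : Prop :=
  ∃ w : W, ∀ z : ℍ, ∃ c : ℝ, 0 < c ∧ (rho w).val *ᵥ vec z = c • vec (g • z)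

lemma realized_S : Realized S := by
  refine ⟨cs.simple 0, fun z => ⟨Complex.normSq (z : ℂ), vec_ne z, ?_⟩⟩
  rw [rho_s0]
  have hz := vec_ne z
  have h1 : ((S • z : ℍ) : ℂ) = (-(z : ℂ))⁻¹ := by
    rw [modular_S_smul]
  have hre : (S • z : ℍ).re = - z.re / Complex.normSq (z : ℂ) := by
    have : (S • z : ℍ).re = ((S • z : ℍ) : ℂ).re := rfl
    rw [this, h1, Complex.inv_re, Complex.normSq_neg, Complex.neg_re]; rfl
  have hn : Complex.normSq ((S • z : ℍ) : ℂ) = (Complex.normSq (z : ℂ))⁻¹ := by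
    rw [h1, map_inv₀, Complex.normSq_neg]
  have hv : vec (S • z) = ![1, - z.re / Complex.normSq (z : ℂ), (Complex.normSq (z : ℂ))⁻¹] := by
    rw [vec, hre, hn]
  rw [hv]
  ext i
  fin_cases i
  · simp [vec]
  · simp only [vec, Fin.mk_one, cons_val_one, cons_val_zero, Pi.smul_apply, smul_eq_mul]
    field_simp
  · simp [vec, hz.ne']

lemma realized_T : Realized ModularGroup.T := by
  refine ⟨cs.simple 2 * (cs.simple 0 * cs.simple 1), fun z => ⟨1, one_pos, ?_⟩⟩
  rw [rho_mul_mulVec, rho_mul_mulVec, rho_s1, rho_s0, rho_s2, one_smul]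
  have h1 : ((ModularGroup.T • z : ℍ) : ℂ) = (z : ℂ) + 1 := by
    rw [modular_T_smul]
    simp [add_comm]
  have hre : (ModularGroup.T • z : ℍ).re = z.re + 1 := by
    have : (ModularGroup.T • z : ℍ).re = ((ModularGroup.T • z : ℍ) : ℂ).re := rfl
    rw [this, h1]; simp
  have hn : Complex.normSq ((ModularGroup.T • z : ℍ) : ℂ) =
      1 + 2 * z.re + Complex.normSq (z : ℂ) := by
    rw [h1, Complex.normSq_apply, Complex.normSq_apply]
    simp
    ring
  have hv : vec (ModularGroup.T • z) = ![1, z.re + 1, 1 + 2 * z.re + Complex.normSq (z : ℂ)] := by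
    rw [vec, hre, hn]
  rw [hv]
  ext i
  fin_cases i
  · simp [vec]
  · simp [vec, add_comm]
  · simp [vec]

lemma realized_mul {g h : SL(2, ℤ)} (hg : Realized g) (hh : Realized h) : Realized (g * h) := by
  obtain ⟨w, hw⟩ := hg
  obtain ⟨w', hw'⟩ := hh
  refine ⟨w * w', fun z => ?_⟩
  obtain ⟨c', hc', e'⟩ := hw' z
  obtain ⟨c, hc, e⟩ := hw (h • z)
  refine ⟨c' * c, by positivity, ?_⟩
  rw [rho_mul_mulVec, e', Matrix.mulVec_smul, e, smul_smul, mul_smul g h z]

lemma realized_one : Realized 1 :=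
  ⟨1, fun z => ⟨1, one_pos, by simp⟩⟩

lemma realized_inv {g : SL(2, ℤ)} (hg : Realized g) : Realized g⁻¹ := by
  obtain ⟨w, hw⟩ := hg
  refine ⟨w⁻¹, fun z => ?_⟩
  obtain ⟨c, hc, e⟩ := hw (g⁻¹ • z)
  rw [smul_inv_smul] at e
  refine ⟨c⁻¹, inv_pos.mpr hc, ?_⟩
  have h1 : (rho w⁻¹).val *ᵥ ((rho w).val *ᵥ vec (g⁻¹ • z)) = vec (g⁻¹ • z) := by
    rw [← rho_mul_mulVec, inv_mul_cancel, map_one]; simp
  rw [e, Matrix.mulVec_smul] at h1
  rw [← h1, smul_smul, inv_mul_cancel₀ hc.ne', one_smul]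

lemma realized (g : SL(2, ℤ)) : Realized g := by
  have hg : g ∈ Subgroup.closure ({S, ModularGroup.T} : Set (SL(2, ℤ))) := by
    rw [SpecialLinearGroup.SL2Z_generators]; trivial
  induction hg using Subgroup.closure_induction with
  | mem x hx =>
    rcases hx with rfl | rfl
    · exact realized_S
    · exact realized_T
  | one => exact realized_one
  | mul x y _ _ hx hy => exact realized_mul hx hy
  | inv x _ hx => exact realized_inv hx

/-- the fundamental set -/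
def F : Set (Fin 3 → ℝ) := {v | v ∈ C ∧ 2 * |v 1| ≤ v 0 ∧ v 0 ≤ v 2}

lemma F_sub : F ⊆ C := fun _ h => h.1

lemma cover (x : Fin 3 → ℝ) (hx : x ∈ C) : ∃ w : W, (rho w).val *ᵥ x ∈ F := by
  have hxC := hx
  have h2 := C_pos2 hx
  obtain ⟨h0, h1⟩ := hx
  have hd : 0 < x 0 * x 2 - x 1 ^ 2 := by linarith
  have hs : 0 < Real.sqrt (x 0 * x 2 - x 1 ^ 2) := Real.sqrt_pos.mpr hd
  let z : ℍ := ⟨⟨x 1 / x 0, Real.sqrt (x 0 * x 2 - x 1 ^ 2) / x 0⟩, by
    change 0 < Real.sqrt (x 0 * x 2 - x 1 ^ 2) / x 0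
    positivity⟩
  have hz : x = x 0 • vec z := by
    have hre : z.re = x 1 / x 0 := rfl
    have hn : Complex.normSq (z : ℂ) = x 2 / x 0 := by
      change Complex.normSq ⟨x 1 / x 0, Real.sqrt (x 0 * x 2 - x 1 ^ 2) / x 0⟩ = _
      rw [Complex.normSq_mk]
      have := Real.mul_self_sqrt hd.le
      field_simp
      nlinarith
    ext i
    fin_cases i
    · simp [vec]
    · simp only [vec, Fin.mk_one, Pi.smul_apply, cons_val_one, cons_val_zero, smul_eq_mul, hre]
      field_simp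
    · simp only [vec, hn]
      simp
      field_simp
  obtain ⟨g, hg⟩ := exists_smul_mem_fd z
  obtain ⟨w, hw⟩ := realized g
  obtain ⟨c, hc, e⟩ := hw z
  refine ⟨w, rho_C w x hxC, ?_⟩
  have e2 : (rho w).val *ᵥ x = (x 0 * c) • vec (g • z) := by
    conv_lhs => rw [hz]
    rw [Matrix.mulVec_smul, e, smul_smul]
  obtain ⟨hg1, hg2⟩ := hg
  have hk : 0 < x 0 * c := by positivity
  rw [e2]
  constructor
  · have : |((x 0 * c) • vec (g • z)) 1| = (x 0 * c) * |(g • z).re| := by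
      simp only [vec, Pi.smul_apply, cons_val_one, cons_val_zero, smul_eq_mul, abs_mul,
        abs_of_pos h0, abs_of_pos hc]
    rw [this]
    have h3 : ((x 0 * c) • vec (g • z)) 0 = x 0 * c := by simp [vec]
    rw [h3]
    nlinarith
  · have h3 : ((x 0 * c) • vec (g • z)) 0 = x 0 * c := by simp [vec]
    have h4 : ((x 0 * c) • vec (g • z)) 2 = (x 0 * c) * Complex.normSq ((g • z : ℍ) : ℂ) := by
      simp [vec]
    rw [h3, h4]
    nlinarith

end Pool.Agent.TH589.QD
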