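import Mathlib
import Pool.Agent.TH589.QD.Cover

set_option autoImplicit false

namespace Pool.Agent.TH589.QD

open Matrix
open scoped ENNReal

/-- Hilbert metric of the cone -/
noncomputable def hd (x y : Fin 3 → ℝ) : ℝ :=
  (1 / 2) * Real.log (sInf {t : ℝ | t • y - x ∈ closure C} * sInf {t : ℝ | t • x - y ∈ closure C})

lemma mem_pos {x y : Fin 3 → ℝ} (hx : x ∈ C) (hy : y ∈ C) {t : ℝ} (h : t • y - x ∈ closure C) :
    0 < t := by
  have h1 := (closure_C h).1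
  simp only [Pi.sub_apply, Pi.smul_apply, smul_eq_mul] at h1
  have h2 := hx.1
  have h3 := hy.1
  by_contra hcon
  push Not at hcon
  nlinarith

lemma sInf_bounds {x y : Fin 3 → ℝ} (hx : x ∈ C) (hy : y ∈ C) {t : ℝ}
    (h : t • y - x ∈ closure C) :
    0 ≤ sInf {t : ℝ | t • y - x ∈ closure C} ∧ sInf {t : ℝ | t • y - x ∈ closure C} ≤ t := by
  constructor
  · apply Real.sInf_nonneg
    intro s hs
    exact (mem_pos hx hy hs).le
  · have hb : BddBelow {t : ℝ | t • y - x ∈ closure C} := ⟨0, fun s hs => (mem_pos hx hy hs).le⟩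
    have hm : t ∈ {t : ℝ | t • y - x ∈ closure C} := h
    exact csInf_le hb hm

/-- a box -/
def Box (x0 wd q δ : ℝ) : Set (Fin 3 → ℝ) :=
  {v | v ∈ C ∧ x0 * v 0 ≤ v 1 ∧ v 1 ≤ (x0 + wd) * v 0 ∧ q * v 0 ^ 2 ≤ v 0 * v 2 - v 1 ^ 2 ∧
    v 0 * v 2 - v 1 ^ 2 ≤ q * (1 + δ / 2) * v 0 ^ 2}

lemma box_key {x0 wd q δ : ℝ} (hδ : 0 < δ) (hδ1 : δ < 1) (hq : 0 < q) (hwd : 0 ≤ wd)
    (hw2 : wd ^ 2 ≤ δ ^ 2 * q / 4) {v w : Fin 3 → ℝ} (hv : v ∈ Box x0 wd q δ)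
    (hw : w ∈ Box x0 wd q δ) : ((v 0 / w 0) * (1 + δ)) • w - v ∈ C := by
  obtain ⟨vC, v1, v2, v3, v4⟩ := hv
  obtain ⟨wC, w1, w2, w3, w4⟩ := hw
  have v0 : 0 < v 0 := vC.1
  have w0 : 0 < w 0 := wC.1
  obtain ⟨X1, hX1⟩ : ∃ X, v 1 = v 0 * X := ⟨v 1 / v 0, by field_simp⟩
  obtain ⟨X2, hX2⟩ : ∃ X, w 1 = w 0 * X := ⟨w 1 / w 0, by field_simp⟩
  obtain ⟨Y1, hY1⟩ : ∃ Y, v 2 = v 0 * (X1 ^ 2 + Y) := ⟨v 2 / v 0 - X1 ^ 2, by field_simp; ring⟩
  obtain ⟨Y2, hY2⟩ : ∃ Y, w 2 = w 0 * (X2 ^ 2 + Y) := ⟨w 2 / w 0 - X2 ^ 2, by field_simp; ring⟩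
  have a1 : x0 ≤ X1 := by
    rw [hX1, mul_comm x0] at v1
    exact le_of_mul_le_mul_left v1 v0
  have a2 : X1 ≤ x0 + wd := by
    rw [hX1, mul_comm (x0 + wd)] at v2
    exact le_of_mul_le_mul_left v2 v0
  have b1 : x0 ≤ X2 := by
    rw [hX2, mul_comm x0] at w1
    exact le_of_mul_le_mul_left w1 w0
  have b2 : X2 ≤ x0 + wd := by
    rw [hX2, mul_comm (x0 + wd)] at w2
    exact le_of_mul_le_mul_left w2 w0
  have a4 : Y1 ≤ q * (1 + δ / 2) := by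
    have : v 0 * v 2 - v 1 ^ 2 = v 0 ^ 2 * Y1 := by rw [hX1, hY1]; ring
    rw [this, mul_comm _ (v 0 ^ 2)] at v4
    exact le_of_mul_le_mul_left v4 (by positivity)
  have b3 : q ≤ Y2 := by
    have : w 0 * w 2 - w 1 ^ 2 = w 0 ^ 2 * Y2 := by rw [hX2, hY2]; ring
    rw [this, mul_comm q] at w3
    exact le_of_mul_le_mul_left w3 (by positivity)
  have hX : (X2 - X1) ^ 2 ≤ δ ^ 2 * q / 4 := by
    refine le_trans ?_ hw2
    apply sq_le_sq'
    · linarith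
    · linarith
  have e : ((v 0 / w 0) * (1 + δ)) • w - v =
      v 0 • ![δ, (1 + δ) * X2 - X1, (1 + δ) * (X2 ^ 2 + Y2) - (X1 ^ 2 + Y1)] := by
    ext i
    fin_cases i
    · simp only [Fin.zero_eta, Pi.sub_apply, Pi.smul_apply, smul_eq_mul, cons_val_zero]
      field_simp
      ring
    · simp only [Fin.mk_one, Pi.sub_apply, Pi.smul_apply, smul_eq_mul, cons_val_one,
        cons_val_zero, hX1, hX2]
      field_simp
    · simp only [Fin.reduceFinMk, Pi.sub_apply, Pi.smul_apply, smul_eq_mul, hY1, hY2,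
        Matrix.cons_val]
      field_simp
  rw [e]
  apply smul_C _ v0
  refine ⟨by simpa using hδ, ?_⟩
  simp only [Matrix.cons_val]
  have h1 : δ ^ 2 * q / 4 * (1 - δ) > 0 := by
    apply mul_pos (by positivity); linarith
  have h2 : (1 + δ) * (X2 - X1) ^ 2 ≤ (1 + δ) * (δ ^ 2 * q / 4) :=
    mul_le_mul_of_nonneg_left hX (by linarith)
  have h3 : δ * (q * (δ / 2)) ≤ δ * ((1 + δ) * Y2 - Y1) := by
    apply mul_le_mul_of_nonneg_left _ hδ.le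
    nlinarith
  nlinarith

lemma box_dist {x0 wd q δ : ℝ} (hδ : 0 < δ) (hδ1 : δ < 1) (hq : 0 < q) (hwd : 0 ≤ wd)
    (hw2 : wd ^ 2 ≤ δ ^ 2 * q / 4) {v w : Fin 3 → ℝ} (hv : v ∈ Box x0 wd q δ)
    (hw : w ∈ Box x0 wd q δ) : hd v w ≤ δ := by
  have v0 : 0 < v 0 := hv.1.1
  have w0 : 0 < w 0 := hw.1.1
  obtain ⟨a1, a2⟩ := sInf_bounds hv.1 hw.1 (subset_closure (box_key hδ hδ1 hq hwd hw2 hv hw))
  obtain ⟨b1, b2⟩ := sInf_bounds hw.1 hv.1 (subset_closure (box_key hδ hδ1 hq hwd hw2 hw hv))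
  have h1 : sInf {t : ℝ | t • w - v ∈ closure C} * sInf {t : ℝ | t • v - w ∈ closure C} ≤
      (1 + δ) ^ 2 := by
    calc _ ≤ (v 0 / w 0 * (1 + δ)) * (w 0 / v 0 * (1 + δ)) :=
          mul_le_mul a2 b2 b1 (by positivity)
      _ = (1 + δ) ^ 2 := by field_simp
  have h2 : Real.log (sInf {t : ℝ | t • w - v ∈ closure C} *
      sInf {t : ℝ | t • v - w ∈ closure C}) ≤ 2 * δ := by
    rcases (mul_nonneg a1 b1).eq_or_lt with h | h
    · rw [← h, Real.log_zero]; positivity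
    · calc _ ≤ Real.log ((1 + δ) ^ 2) := Real.log_le_log h h1
        _ = 2 * Real.log (1 + δ) := by rw [Real.log_pow]; norm_num
        _ ≤ 2 * δ := by
          have := Real.log_le_sub_one_of_pos (show 0 < 1 + δ by linarith)
          linarith
  unfold hd
  linarith

/-- diameter -/
noncomputable def dm (U : Set (Fin 3 → ℝ)) : ℝ≥0∞ := ⨆ x ∈ U, ⨆ y ∈ U, ENNReal.ofReal (hd x y)

lemma dm_empty : dm ∅ = 0 := by simp [dm]

lemma dm_box {x0 wd q δ : ℝ} (hδ : 0 < δ) (hδ1 : δ < 1) (hq : 0 < q) (hwd : 0 ≤ wd)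
    (hw2 : wd ^ 2 ≤ δ ^ 2 * q / 4) : dm (Box x0 wd q δ) ≤ ENNReal.ofReal δ := by
  apply iSup₂_le
  intro x hx
  apply iSup₂_le
  intro y hy
  exact ENNReal.ofReal_le_ofReal (box_dist hδ hδ1 hq hwd hw2 hx hy)

/-- the scale at level `j` -/
noncomputable def dl (r : ℝ) (j : ℕ) : ℝ := min r ((1 / 2) ^ (j + 1))

lemma dl_pos {r : ℝ} (hr : 0 < r) (j : ℕ) : 0 < dl r j := lt_min hr (by positivity)

lemma dl_le (r : ℝ) (j : ℕ) : dl r j ≤ (1 / 2) ^ (j + 1) := min_le_right _ _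

lemma dl_le_r (r : ℝ) (j : ℕ) : dl r j ≤ r := min_le_left _ _

lemma dl_le_half (r : ℝ) (j : ℕ) : dl r j ≤ 1 / 2 := by
  refine (dl_le r j).trans ?_
  have : ((1 : ℝ) / 2) ^ (j + 1) ≤ (1 / 2) ^ 1 :=
    pow_le_pow_of_le_one (by norm_num) (by norm_num) (by omega)
  simpa using this

/-- number of vertical steps -/
noncomputable def KK (r : ℝ) (j : ℕ) : ℕ := ⌊6 / dl r j⌋₊ + 1

/-- number of horizontal steps -/
noncomputable def MM (r : ℝ) (j : ℕ) : ℕ := ⌊4 / (dl r j * 2 ^ j)⌋₊ + 1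

/-- index type -/
abbrev Idx (r : ℝ) : Type := Σ j : ℕ, Fin (KK r j) × Fin (MM r j)

/-- the boxes -/
noncomputable def bx (r : ℝ) (p : Idx r) : Set (Fin 3 → ℝ) :=
  Box (-1 / 2 + (p.2.2 : ℕ) * (dl r p.1 * 2 ^ p.1 / 4)) (dl r p.1 * 2 ^ p.1 / 4)
    (3 / 4 * 4 ^ p.1 * (1 + (p.2.1 : ℕ) * (dl r p.1 / 2))) (dl r p.1)

lemma bx_sub (r : ℝ) (p : Idx r) : bx r p ⊆ C := fun _ h => h.1

lemma dm_bx {r : ℝ} (hr : 0 < r) (p : Idx r) : dm (bx r p) ≤ ENNReal.ofReal (dl r p.1) := by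
  have hd0 := dl_pos hr p.1
  have hd1 := dl_le_half r p.1
  apply dm_box hd0 (by linarith) (by positivity) (by positivity)
  have h4 : ((2 : ℝ) ^ p.1) ^ 2 = 4 ^ p.1 := by
    rw [← pow_mul, mul_comm, pow_mul]; norm_num
  have h1 : (dl r p.1 * 2 ^ p.1 / 4) ^ 2 = dl r p.1 ^ 2 * 4 ^ p.1 / 16 := by
    rw [div_pow, mul_pow, h4]; norm_num
  rw [h1]
  have h2 : (0 : ℝ) ≤ (p.2.1 : ℕ) * (dl r p.1 / 2) := by positivity
  have h3 : 0 < dl r p.1 ^ 2 * 4 ^ p.1 := by positivity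
  nlinarith

lemma F_cover {r : ℝ} (hr : 0 < r) : F ⊆ ⋃ p : Idx r, bx r p := by
  intro v hv
  obtain ⟨hC, h1, h2⟩ := hv
  have v0 : 0 < v 0 := hC.1
  obtain ⟨X, hX⟩ : ∃ X, v 1 = v 0 * X := ⟨v 1 / v 0, by field_simp⟩
  obtain ⟨Y, hY⟩ : ∃ Y, v 2 = v 0 * (X ^ 2 + Y) := ⟨v 2 / v 0 - X ^ 2, by field_simp; ring⟩
  have hX1 : |X| ≤ 1 / 2 := by
    rw [hX, abs_mul, abs_of_pos v0] at h1
    have : v 0 * (2 * |X|) ≤ v 0 * 1 := by linarith
    have := le_of_mul_le_mul_left this v0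
    linarith
  have hXY : 1 ≤ X ^ 2 + Y := by
    rw [hY] at h2
    have : v 0 * 1 ≤ v 0 * (X ^ 2 + Y) := by linarith
    exact le_of_mul_le_mul_left this v0
  obtain ⟨hXa, hXb⟩ := abs_le.mp hX1
  have hY34 : 3 / 4 ≤ Y := by nlinarith
  obtain ⟨j, hj1, hj2⟩ := exists_nat_pow_near (x := Y / (3 / 4)) (y := (4 : ℝ))
    (by rw [le_div_iff₀ (by norm_num)]; linarith) (by norm_num)
  set δ := dl r j with hδ
  have hδ0 : 0 < δ := dl_pos hr j
  have h4j : (0 : ℝ) < 4 ^ j := by positivity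
  have h2j : (0 : ℝ) < 2 ^ j := by positivity
  -- vertical index
  set u := (Y / (3 / 4) / 4 ^ j - 1) / (δ / 2) with hu
  have hu0 : 0 ≤ u := by
    apply div_nonneg _ (by positivity)
    rw [sub_nonneg, le_div_iff₀ h4j]; linarith
  have huK : u < 6 / δ := by
    rw [hu, div_lt_div_iff₀ (by positivity) hδ0]
    have : Y / (3 / 4) / 4 ^ j < 4 := by
      rw [div_lt_iff₀ h4j]
      calc Y / (3 / 4) < 4 ^ (j + 1) := hj2
        _ = 4 * 4 ^ j := by ring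
    nlinarith
  have hk : ⌊u⌋₊ < KK r j := by
    unfold KK
    have : ⌊u⌋₊ ≤ ⌊6 / dl r j⌋₊ := Nat.floor_le_floor huK.le
    omega
  -- horizontal index
  set s := (X + 1 / 2) / (δ * 2 ^ j / 4) with hs
  have hs0 : 0 ≤ s := div_nonneg (by linarith) (by positivity)
  have hsM : s ≤ 4 / (δ * 2 ^ j) := by
    rw [hs, div_le_div_iff₀ (by positivity) (by positivity)]
    have : 0 < δ * 2 ^ j := by positivity
    nlinarith
  have hm : ⌊s⌋₊ < MM r j := by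
    unfold MM
    have : ⌊s⌋₊ ≤ ⌊4 / (dl r j * 2 ^ j)⌋₊ := Nat.floor_le_floor hsM
    omega
  rw [Set.mem_iUnion]
  refine ⟨⟨j, ⟨⌊u⌋₊, hk⟩, ⟨⌊s⌋₊, hm⟩⟩, hC, ?_, ?_, ?_, ?_⟩
  · change (-1 / 2 + (⌊s⌋₊ : ℝ) * (δ * 2 ^ j / 4)) * v 0 ≤ v 1
    have h5 : (⌊s⌋₊ : ℝ) * (δ * 2 ^ j / 4) ≤ X + 1 / 2 := by
      have := Nat.floor_le hs0
      calc (⌊s⌋₊ : ℝ) * (δ * 2 ^ j / 4) ≤ s * (δ * 2 ^ j / 4) :=
            mul_le_mul_of_nonneg_right this (by positivity)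
        _ = X + 1 / 2 := by rw [hs]; field_simp
    rw [hX, mul_comm]
    apply mul_le_mul_of_nonneg_left _ v0.le
    linarith
  · change v 1 ≤ (-1 / 2 + (⌊s⌋₊ : ℝ) * (δ * 2 ^ j / 4) + δ * 2 ^ j / 4) * v 0
    have h5 : X + 1 / 2 ≤ ((⌊s⌋₊ : ℝ) + 1) * (δ * 2 ^ j / 4) := by
      have := (Nat.lt_floor_add_one s).le
      calc X + 1 / 2 = s * (δ * 2 ^ j / 4) := by rw [hs]; field_simp
        _ ≤ _ := mul_le_mul_of_nonneg_right this (by positivity)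
    rw [hX, mul_comm _ (v 0)]
    apply mul_le_mul_of_nonneg_left _ v0.le
    linarith
  · change 3 / 4 * 4 ^ j * (1 + (⌊u⌋₊ : ℝ) * (δ / 2)) * v 0 ^ 2 ≤ v 0 * v 2 - v 1 ^ 2
    have h5 : (⌊u⌋₊ : ℝ) * (δ / 2) ≤ Y / (3 / 4) / 4 ^ j - 1 := by
      have := Nat.floor_le hu0
      calc (⌊u⌋₊ : ℝ) * (δ / 2) ≤ u * (δ / 2) := mul_le_mul_of_nonneg_right this (by positivity)
        _ = _ := by rw [hu]; field_simp
    have h6 : v 0 * v 2 - v 1 ^ 2 = Y * v 0 ^ 2 := by rw [hX, hY]; ring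
    rw [h6]
    apply mul_le_mul_of_nonneg_right _ (by positivity)
    calc 3 / 4 * 4 ^ j * (1 + (⌊u⌋₊ : ℝ) * (δ / 2)) ≤ 3 / 4 * 4 ^ j * (Y / (3 / 4) / 4 ^ j) :=
          mul_le_mul_of_nonneg_left (by linarith) (by positivity)
      _ = Y := by field_simp
  · change v 0 * v 2 - v 1 ^ 2 ≤
      3 / 4 * 4 ^ j * (1 + (⌊u⌋₊ : ℝ) * (δ / 2)) * (1 + δ / 2) * v 0 ^ 2
    have h5 : Y / (3 / 4) / 4 ^ j - 1 ≤ ((⌊u⌋₊ : ℝ) + 1) * (δ / 2) := by
      have := (Nat.lt_floor_add_one u).le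
      calc Y / (3 / 4) / 4 ^ j - 1 = u * (δ / 2) := by rw [hu]; field_simp
        _ ≤ _ := mul_le_mul_of_nonneg_right this (by positivity)
    have h6 : v 0 * v 2 - v 1 ^ 2 = Y * v 0 ^ 2 := by rw [hX, hY]; ring
    rw [h6]
    apply mul_le_mul_of_nonneg_right _ (by positivity)
    have h7 : (0 : ℝ) ≤ (⌊u⌋₊ : ℝ) * (δ / 2) * (δ / 2) := by positivity
    calc Y = 3 / 4 * 4 ^ j * (Y / (3 / 4) / 4 ^ j) := by field_simp
      _ ≤ 3 / 4 * 4 ^ j * ((1 + (⌊u⌋₊ : ℝ) * (δ / 2)) * (1 + δ / 2)) :=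
          mul_le_mul_of_nonneg_left (by nlinarith) (by positivity)
      _ = _ := by ring

lemma level_bound {r : ℝ} (hr : 0 < r) (j : ℕ) :
    ∑' q : Fin (KK r j) × Fin (MM r j), dm (bx r ⟨j, q⟩) ^ 2 ≤ ENNReal.ofReal (35 * (1 / 2) ^ j) := by
  have hδ0 := dl_pos hr j
  have hδ1 := dl_le r j
  have hδ2 := dl_le_half r j
  have h2j : (0 : ℝ) < 2 ^ j := by positivity
  rw [tsum_fintype]
  calc ∑ q : Fin (KK r j) × Fin (MM r j), dm (bx r ⟨j, q⟩) ^ 2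
      ≤ ∑ _q : Fin (KK r j) × Fin (MM r j), ENNReal.ofReal (dl r j ^ 2) := by
        apply Finset.sum_le_sum
        intro q _
        rw [ENNReal.ofReal_pow hδ0.le]
        exact pow_le_pow_left' (dm_bx hr ⟨j, q⟩) 2
    _ = ENNReal.ofReal ((KK r j : ℝ) * (MM r j : ℝ) * dl r j ^ 2) := by
        rw [Finset.sum_const, Finset.card_univ, Fintype.card_prod, Fintype.card_fin,
          Fintype.card_fin, nsmul_eq_mul, ENNReal.ofReal_mul (by positivity)]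
        congr 1
        rw [← Nat.cast_mul, ENNReal.ofReal_natCast]
    _ ≤ ENNReal.ofReal (35 * (1 / 2) ^ j) := by
        apply ENNReal.ofReal_le_ofReal
        have hK : (KK r j : ℝ) ≤ 6 / dl r j + 1 := by
          unfold KK; push_cast
          have := Nat.floor_le (show 0 ≤ 6 / dl r j by positivity)
          linarith
        have hM : (MM r j : ℝ) ≤ 4 / (dl r j * 2 ^ j) + 1 := by
          unfold MM; push_cast
          have := Nat.floor_le (show 0 ≤ 4 / (dl r j * 2 ^ j) by positivity)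
          linarith
        calc (KK r j : ℝ) * (MM r j : ℝ) * dl r j ^ 2
            ≤ (6 / dl r j + 1) * (4 / (dl r j * 2 ^ j) + 1) * dl r j ^ 2 := by
              apply mul_le_mul_of_nonneg_right _ (by positivity)
              exact mul_le_mul hK hM (by positivity) (by positivity)
          _ = (6 + dl r j) * (4 * (1 / 2) ^ j + dl r j) := by
              rw [one_div, inv_pow]
              field_simp
          _ ≤ 7 * (4 * (1 / 2) ^ j + (1 / 2) ^ j) := by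
              apply mul_le_mul
              · linarith
              · have : ((1 : ℝ) / 2) ^ (j + 1) ≤ (1 / 2) ^ j :=
                  pow_le_pow_of_le_one (by norm_num) (by norm_num) (by omega)
                linarith
              · positivity
              · norm_num
          _ = 35 * (1 / 2) ^ j := by ring

lemma total_bound {r : ℝ} (hr : 0 < r) :
    ∑' p : Idx r, dm (bx r p) ^ 2 ≤ 70 := by
  rw [ENNReal.tsum_sigma']
  calc ∑' (j : ℕ) (q : Fin (KK r j) × Fin (MM r j)), dm (bx r ⟨j, q⟩) ^ 2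
      ≤ ∑' j : ℕ, ENNReal.ofReal (35 * (1 / 2) ^ j) := ENNReal.tsum_le_tsum (level_bound hr)
    _ = ENNReal.ofReal (∑' j : ℕ, 35 * (1 / 2 : ℝ) ^ j) := by
        rw [ENNReal.ofReal_tsum_of_nonneg]
        · intro j; positivity
        · exact (summable_geometric_two).mul_left 35
    _ ≤ 70 := by
        rw [tsum_mul_left, tsum_geometric_two]
        norm_num

/-- `F` has finite Hilbert measure -/
lemma finite_vol (r : ℝ) (hr : 0 < r) :
    ⨅ (U : ℕ → Set (Fin 3 → ℝ)) (_ : F ⊆ ⋃ i, U i)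
      (_ : ∀ i, U i ⊆ C ∧ dm (U i) ≤ ENNReal.ofReal r), ∑' i, dm (U i) ^ 2 ≤ 70 := by
  let U : ℕ → Set (Fin 3 → ℝ) := fun n => ⋃ b ∈ Encodable.decode₂ (Idx r) n, bx r b
  have hU : ∀ n, U n = ∅ ∨ ∃ b, U n = bx r b := by
    intro n
    rcases h : Encodable.decode₂ (Idx r) n with _ | b
    · left; simp [U, h]
    · right; refine ⟨b, ?_⟩; simp [U, h]
  have h1 : F ⊆ ⋃ i, U i := by
    have : ⋃ i, U i = ⋃ b, bx r b := Encodable.iUnion_decode₂ _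
    rw [this]
    exact F_cover hr
  have h2 : ∀ i, U i ⊆ C ∧ dm (U i) ≤ ENNReal.ofReal r := by
    intro i
    rcases hU i with h | ⟨b, h⟩
    · rw [h, dm_empty]; exact ⟨Set.empty_subset _, zero_le⟩
    · rw [h]
      exact ⟨bx_sub r b, (dm_bx hr b).trans (ENNReal.ofReal_le_ofReal (dl_le_r r b.1))⟩
  refine (iInf_le _ U).trans ((iInf_le _ h1).trans ((iInf_le _ h2).trans ?_))
  have h3 : ∑' i, dm (U i) ^ 2 = ∑' b, dm (bx r b) ^ 2 :=
    tsum_iUnion_decode₂ (fun S => dm S ^ 2) (by simp [dm_empty]) (bx r)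
  rw [h3]
  exact total_bound hr

end Pool.Agent.TH589.QD
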